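import Mathlib
import Pool.Agent.H98.Code.Minor
import Pool.Agent.H26.TR.Full

set_option autoImplicit false

/-!
The counting step of MP_a46c6f_co, note 6830 (2), (3): a word with one `z` and exactly two letters.
-/

namespace Pool.Agent.H74.CT

open Finset Pool.Agent.H98.Code Pool.Agent.H26.TR

/-! ### arithmetic in `ZMod 2` -/

theorem z2_cases (a : ZMod 2) : a = 0 ∨ a = 1 := by
  revert a
  decide

theorem z2_self (a : ZMod 2) : a + a = 0 := by
  revert a
  decide

theorem k_zero_of_fst {a d : K} (hd : d.1 = 1) (h : a = 0 ∨ a = d) (h0 : a.1 = 0) : a = 0 := by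
  rcases h with h | h
  · exact h
  · rw [h, hd] at h0
    exact absurd h0 (by decide)

theorem k_eq_of_fst {a d : K} (h : a = 0 ∨ a = d) (h0 : a.1 = 1) : a = d := by
  rcases h with h | h
  · rw [h] at h0
    exact absurd h0 (by decide)
  · exact h

/-! ### the combinatorial core -/

section core

variable {V : Type} [DecidableEq V]

/-- toggling one coordinate of a transversal -/
theorem toggle (P' : Finset (Finset V)) (M0 : Finset V) (c : V → ZMod 2) (ρ : V → V → ZMod 2)
    (A : (Finset V → V) → V)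
    (hE : ∀ h : Finset V → V, (∀ M ∈ P', h M ∈ M) → A h ∈ M0 ∧ ∀ m ∈ M0,
      c m + ∑ M ∈ P', ρ m (h M) = if m = A h then 1 else 0)
    (h : Finset V → V) (hh : ∀ M ∈ P', h M ∈ M) (M : Finset V) (hM : M ∈ P') (s : V) (hs : s ∈ M) :
    ∀ m ∈ M0, ρ m (h M) + ρ m s =
      (if m = A h then 1 else 0) + (if m = A (Function.update h M s) then 1 else 0) := by
  intro m hm
  have hh' : ∀ N ∈ P', Function.update h M s N ∈ N := by
    intro N hN
    by_cases hNM : N = M
    · subst hNM
      rw [Function.update_self]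
      exact hs
    · rw [Function.update_of_ne hNM]
      exact hh N hN
  have e1 := (hE h hh).2 m hm
  have e2 := (hE _ hh').2 m hm
  rw [← Finset.add_sum_erase P' _ hM] at e1 e2
  rw [Function.update_self] at e2
  have e3 : ∑ x ∈ P'.erase M, ρ m (Function.update h M s x) = ∑ x ∈ P'.erase M, ρ m (h x) := by
    refine Finset.sum_congr rfl fun N hN => ?_
    rw [Function.update_of_ne (Finset.ne_of_mem_erase hN)]
  rw [e3] at e2
  rw [← e1, ← e2]
  have h1 := z2_self (c m)
  have h2 := z2_self (∑ x ∈ P'.erase M, ρ m (h x))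
  linear_combination -h1 - h2

/-- two active parts have the same toggle set, a pair -/
theorem two_parts (P' : Finset (Finset V)) (M0 : Finset V) (c : V → ZMod 2) (ρ : V → V → ZMod 2)
    (A : (Finset V → V) → V)
    (hE : ∀ h : Finset V → V, (∀ M ∈ P', h M ∈ M) → A h ∈ M0 ∧ ∀ m ∈ M0,
      c m + ∑ M ∈ P', ρ m (h M) = if m = A h then 1 else 0)
    (h : Finset V → V) (hh : ∀ M ∈ P', h M ∈ M)
    (M M' : Finset V) (hM : M ∈ P') (hM' : M' ∈ P') (hne : M ≠ M')
    (s s' t t' : V) (hs : s ∈ M) (hs' : s' ∈ M) (ht : t ∈ M') (ht' : t' ∈ M')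
    (h1 : ∃ m ∈ M0, ρ m s + ρ m s' = 1) (h2 : ∃ m ∈ M0, ρ m t + ρ m t' = 1) :
    (∀ m ∈ M0, ρ m s + ρ m s' = ρ m t + ρ m t') ∧
      ∃ p ∈ M0, ∃ q ∈ M0, p ≠ q ∧
        ∀ m ∈ M0, ρ m s + ρ m s' = (if m = p then 1 else 0) + (if m = q then 1 else 0) := by
  have upd : ∀ (k : Finset V → V) (_ : ∀ N ∈ P', k N ∈ N) (N : Finset V) (x : V) (_ : x ∈ N),
      ∀ L ∈ P', Function.update k N x L ∈ L := by
    intro k hk N x hx L hL
    by_cases hLN : L = N
    · subst hLN
      rw [Function.update_self]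
      exact hx
    · rw [Function.update_of_ne hLN]
      exact hk L hL
  set g1 : Finset V → V := Function.update (Function.update h M s) M' t with hg1
  have G1 : ∀ N ∈ P', g1 N ∈ N := upd _ (upd _ hh M s hs) M' t ht
  set g3 : Finset V → V := Function.update g1 M' t' with hg3
  have G3 : ∀ N ∈ P', g3 N ∈ N := upd _ G1 M' t' ht'
  have v1 : g1 M = s := by
    rw [hg1, Function.update_of_ne hne, Function.update_self]
  have v2 : g1 M' = t := by
    rw [hg1, Function.update_self]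
  have v3 : g3 M = s := by
    rw [hg3, Function.update_of_ne hne, v1]
  have T12 := toggle P' M0 c ρ A hE g1 G1 M hM s' hs'
  have T13 := toggle P' M0 c ρ A hE g1 G1 M' hM' t' ht'
  have T34 := toggle P' M0 c ρ A hE g3 G3 M hM s' hs'
  rw [v1] at T12
  rw [v2] at T13
  rw [v3] at T34
  rw [← hg3] at T13
  set a1 := A g1
  set a2 := A (Function.update g1 M s')
  set a3 := A g3
  set a4 := A (Function.update g3 M s')
  have m1 : a1 ∈ M0 := (hE g1 G1).1
  have m2 : a2 ∈ M0 := (hE _ (upd _ G1 M s' hs')).1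
  have m3 : a3 ∈ M0 := (hE g3 G3).1
  have d12 : a1 ≠ a2 := by
    intro h0
    obtain ⟨m, hm, e⟩ := h1
    rw [T12 m hm, h0, z2_self] at e
    exact absurd e (by decide)
  have d13 : a1 ≠ a3 := by
    intro h0
    obtain ⟨m, hm, e⟩ := h2
    rw [T13 m hm, h0, z2_self] at e
    exact absurd e (by decide)
  have d34 : a3 ≠ a4 := by
    intro h0
    obtain ⟨m, hm, e⟩ := h1
    rw [T34 m hm, h0, z2_self] at e
    exact absurd e (by decide)
  have e32 : a3 = a2 := by
    have e := T12 a3 m3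
    rw [T34 a3 m3, if_pos rfl, if_neg d34, if_neg (Ne.symm d13)] at e
    by_contra hne2
    rw [if_neg hne2] at e
    exact absurd e (by decide)
  refine ⟨fun m hm => ?_, a1, m1, a2, m2, d12, fun m hm => T12 m hm⟩
  rw [T12 m hm, T13 m hm, e32]

end core

/-! ### the words -/

section words

variable {V : Type} [Fintype V] [DecidableEq V]

theorem sum_split {P : Finset (Finset V)} {e : V} (he : ∀ M ∈ P, e ∉ M)
    (hdis : ∀ M ∈ P, ∀ N ∈ P, M ≠ N → Disjoint M N) (hcov : ∀ v, v ≠ e → ∃ M ∈ P, v ∈ M)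
    (f : V → ZMod 2) : ∑ v, f v = f e + ∑ M ∈ P, ∑ v ∈ M, f v := by
  have h1 : (univ : Finset V) = insert e (P.biUnion id) := by
    ext v
    simp only [Finset.mem_univ, Finset.mem_insert, Finset.mem_biUnion, id, true_iff]
    by_cases hv : v = e
    · exact Or.inl hv
    · exact Or.inr (hcov v hv)
  have h2 : e ∉ P.biUnion id := by
    simp only [Finset.mem_biUnion, id, not_exists, not_and]
    exact he
  rw [h1, Finset.sum_insert h2, Finset.sum_biUnion]
  · rfl
  · intro M hM N hN hne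
    exact hdis M hM N hN hne

/-- the standing data -/
structure Data (L : Submodule (ZMod 2) (V → K)) (e : V) (D : V → K) (P : Finset (Finset V))
    (M0 : Finset V) (y : V → V → K) : Prop where
  iso : ∀ u ∈ L, ∀ w ∈ L, form u w = 0
  one : (fun _ => z) ∈ L
  letter : ∀ v, v ≠ e → (D v).1 = 1
  part : ∀ M ∈ P, M ≠ ∅ ∧ e ∉ M ∧ pw D e M ∈ L
  dis : ∀ M ∈ P, ∀ N ∈ P, M ≠ N → Disjoint M N
  cov : ∀ v, v ≠ e → ∃ M ∈ P, v ∈ M
  M0mem : M0 ∈ P
  big : ∀ M ∈ P, M.card ≤ M0.card
  row : ∀ m ∈ M0, y m ∈ L ∧ (y m m).1 = 1 ∧ (∀ v ∈ M0, v ≠ m → (y m v).1 = 0) ∧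
    (∀ v, v ∉ M0 → v ≠ e → y m v = 0 ∨ y m v = D v) ∧ (y m e).1 = 0

variable {L : Submodule (ZMod 2) (V → K)} {e : V} {D : V → K} {P : Finset (Finset V)}
  {M0 : Finset V} {y : V → V → K}

theorem Data.split (H : Data L e D P M0 y) (f : V → ZMod 2) :
    ∑ v, f v = f e + (∑ v ∈ M0, f v + ∑ M ∈ P.erase M0, ∑ v ∈ M, f v) := by
  rw [sum_split (fun M hM => (H.part M hM).2.1) H.dis H.cov f,
    ← Finset.add_sum_erase P (fun M => ∑ v ∈ M, f v) H.M0mem]

theorem Data.ne_e (H : Data L e D P M0 y) {M : Finset V} (hM : M ∈ P) {v : V} (hv : v ∈ M) :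
    v ≠ e := by
  intro h
  exact (H.part M hM).2.1 (h ▸ hv)

theorem Data.notMem (H : Data L e D P M0 y) {M N : Finset V} (hM : M ∈ P) (hN : N ∈ P)
    (hne : M ≠ N) {v : V} (hv : v ∈ M) : v ∉ N :=
  Finset.disjoint_left.1 (H.dis M hM N hN hne) hv

/-- every part has an even number of elements -/
theorem Data.even (H : Data L e D P M0 y) {M : Finset V} (hM : M ∈ P) : (M.card : ZMod 2) = 0 := by
  have h1 := H.iso _ (H.part M hM).2.2 _ H.one
  have h2 : form (pw D e M) (fun _ => z) = ∑ v, (pw D e M v).1 := by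
    simp only [form, kf_z_right]
  have h3 : ∑ v, (pw D e M v).1 = ∑ v ∈ M, (1 : ZMod 2) := by
    rw [← Finset.sum_subset (Finset.subset_univ M)]
    · refine Finset.sum_congr rfl fun v hv => ?_
      have hve := H.ne_e hM hv
      rw [pw, if_neg hve, if_pos hv]
      exact H.letter v hve
    · intro v _ hv
      unfold pw
      by_cases hve : v = e
      · rw [if_pos hve]
        rfl
      · rw [if_neg hve, if_neg hv]
        rfl
  rw [h2, h3] at h1
  simpa using h1

/-- the letters of `y m` outside `M0` are odd in number -/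
theorem Data.odd (H : Data L e D P M0 y) {m : V} (hm : m ∈ M0) :
    ∑ M ∈ P.erase M0, ∑ v ∈ M, (y m v).1 = 1 := by
  obtain ⟨h1, h2, h3, _, h5⟩ := H.row m hm
  have h6 := H.iso _ h1 _ H.one
  have h7 : form (y m) (fun _ => z) = ∑ v, (y m v).1 := by
    simp only [form, kf_z_right]
  rw [h7, H.split, h5, zero_add] at h6
  have h8 : ∑ v ∈ M0, (y m v).1 = 1 := by
    rw [Finset.sum_eq_single m]
    · exact h2
    · intro v hv hne
      exact h3 v hv hne
    · intro h
      exact absurd hm h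
  rw [h8] at h6
  rcases z2_cases (∑ M ∈ P.erase M0, ∑ v ∈ M, (y m v).1) with h | h
  · rw [h] at h6
    exact absurd h6 (by decide)
  · exact h

/-- some part outside `M0` is active for `m` -/
theorem Data.active (H : Data L e D P M0 y) {m : V} (hm : m ∈ M0) :
    ∃ M ∈ P.erase M0, ∃ s ∈ M, ∃ t ∈ M, (y m s).1 + (y m t).1 = 1 := by
  by_contra hcon
  push Not at hcon
  have h1 : ∑ M ∈ P.erase M0, ∑ v ∈ M, (y m v).1 = 0 := by
    refine Finset.sum_eq_zero fun M hM => ?_
    have hMP := Finset.mem_of_mem_erase hM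
    obtain ⟨s, hs⟩ := Finset.nonempty_iff_ne_empty.2 (H.part M hMP).1
    have h2 : ∑ v ∈ M, (y m v).1 = ∑ _v ∈ M, (y m s).1 := by
      refine Finset.sum_congr rfl fun t ht => ?_
      have h3 := hcon M hM s hs t ht
      rcases z2_cases (y m s).1 with ha | ha <;> rcases z2_cases (y m t).1 with hb | hb <;>
        rw [ha, hb] at h3 ⊢ <;> first | rfl | exact absurd rfl h3 | exact absurd (by decide) h3
    rw [h2, Finset.sum_const, nsmul_eq_mul, H.even hMP, zero_mul]
  rw [H.odd hm] at h1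
  exact absurd h1 (by decide)

/-- the pairing of `y m` with the row of `e` -/
theorem Data.pair (H : Data L e D P M0 y) (h : Finset V → V) (hh : ∀ M ∈ P.erase M0, h M ∈ M)
    (r : V → K) (hr : r ∈ L) (hre : (r e).1 = 1) (hr0 : ∀ v ∈ M0, (r v).1 = 0) (a : V)
    (hra : ∀ v ∈ M0, (r v = z ↔ v = a))
    (hrM : ∀ M ∈ P.erase M0, ∀ v ∈ M, kf (r v) (if v = h M then D v + z else D v) = 0)
    (m : V) (hm : m ∈ M0) :
    (y m e).2 + ∑ M ∈ P.erase M0, (y m (h M)).1 = if m = a then 1 else 0 := by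
  have key : ∀ M ∈ P.erase M0, kf (D (h M)) (r (h M)) = 1 := by
    intro M hM
    have hMP := Finset.mem_of_mem_erase hM
    have h1 := H.iso _ (H.part M hMP).2.2 _ hr
    have h2 : form (pw D e M) r = kf z (r e) + kf (D (h M)) (r (h M)) := by
      unfold form
      rw [H.split]
      have h3 : ∑ v ∈ M0, kf (pw D e M v) (r v) = 0 := by
        refine Finset.sum_eq_zero fun v hv => ?_
        have hvM : v ∉ M := H.notMem H.M0mem hMP (Ne.symm (Finset.ne_of_mem_erase hM)) hv
        rw [pw, if_neg (H.ne_e H.M0mem hv), if_neg hvM, kf_zero_left]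
      have h4 : ∑ N ∈ P.erase M0, ∑ v ∈ N, kf (pw D e M v) (r v) = kf (D (h M)) (r (h M)) := by
        rw [Finset.sum_eq_single M]
        · rw [Finset.sum_eq_single (h M)]
          · rw [pw, if_neg (H.ne_e hMP (hh M hM)), if_pos (hh M hM)]
          · intro v hv hne
            rw [pw, if_neg (H.ne_e hMP hv), if_pos hv, kf_comm]
            have h5 := hrM M hM v hv
            rw [if_neg hne] at h5
            exact h5
          · intro h5
            exact absurd (hh M hM) h5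
        · intro N hN hne
          refine Finset.sum_eq_zero fun v hv => ?_
          have hNP := Finset.mem_of_mem_erase hN
          rw [pw, if_neg (H.ne_e hNP hv), if_neg (H.notMem hNP hMP hne hv), kf_zero_left]
        · intro h5
          exact absurd hM h5
      rw [h3, h4, zero_add]
      rw [pw, if_pos rfl]
    rw [h2, kf_z_left, hre] at h1
    rcases z2_cases (kf (D (h M)) (r (h M))) with h5 | h5
    · rw [h5] at h1
      exact absurd h1 (by decide)
    · exact h5
  obtain ⟨h1, h2, h3, h4, h5⟩ := H.row m hm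
  have h6 := H.iso _ h1 _ hr
  unfold form at h6
  rw [H.split] at h6
  have e1 : kf (y m e) (r e) = (y m e).2 := by
    unfold kf
    rw [h5, hre]
    ring
  have e2 : ∑ v ∈ M0, kf (y m v) (r v) = if m = a then 1 else 0 := by
    rw [Finset.sum_eq_single m]
    · unfold kf
      rw [h2, hr0 m hm]
      by_cases hma : m = a
      · rw [if_pos hma, (hra m hm).2 hma]
        simp [z]
      · rw [if_neg hma]
        have h7 : r m ≠ z := fun h8 => hma ((hra m hm).1 h8)
        have h8 : (r m).2 = 0 := by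
          rcases z2_cases (r m).2 with h9 | h9
          · exact h9
          · exact absurd (Prod.ext (hr0 m hm) h9) h7
        rw [h8]
        ring
    · intro v hv hne
      unfold kf
      rw [h3 v hv hne, hr0 v hv]
      ring
    · intro h7
      exact absurd hm h7
  have e3 : ∑ M ∈ P.erase M0, ∑ v ∈ M, kf (y m v) (r v) = ∑ M ∈ P.erase M0, (y m (h M)).1 := by
    refine Finset.sum_congr rfl fun M hM => ?_
    have hMP := Finset.mem_of_mem_erase hM
    have hne0 := Finset.ne_of_mem_erase hM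
    rw [Finset.sum_eq_single (h M)]
    · have hv := hh M hM
      rcases h4 (h M) (H.notMem hMP H.M0mem hne0 hv) (H.ne_e hMP hv) with h7 | h7
      · rw [h7, kf_zero_left]
        rfl
      · rw [h7, key M hM, H.letter _ (H.ne_e hMP hv)]
    · intro v hv hne
      rcases h4 v (H.notMem hMP H.M0mem hne0 hv) (H.ne_e hMP hv) with h7 | h7
      · rw [h7, kf_zero_left]
      · rw [h7, kf_comm]
        have h8 := hrM M hM v hv
        rw [if_neg hne] at h8
        exact h8
    · intro h7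
      exact absurd (hh M hM) h7
  rw [e1, e2, e3] at h6
  have h9 := z2_self (if m = a then (1 : ZMod 2) else 0)
  linear_combination h6 - h9

/-- the counting step -/
theorem Data.two_letter_word (H : Data L e D P M0 y) (hk : ∃ M ∈ P, M ≠ M0)
    (leaf : ∃ l ∈ M0, ∃ g ∈ M0, g ≠ l ∧ ∀ v ∈ M0, v ≠ l → (y l v = z ↔ v = g))
    (hr : ∀ h : Finset V → V, (∀ M ∈ P, M ≠ M0 → h M ∈ M) →
      ∃ r ∈ L, (r e).1 = 1 ∧ (∀ v ∈ M0, (r v).1 = 0) ∧ (∃ a ∈ M0, ∀ v ∈ M0, (r v = z ↔ v = a)) ∧
        ∀ M ∈ P, M ≠ M0 → ∀ v ∈ M, kf (r v) (if v = h M then D v + z else D v) = 0) :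
    ∃ g a b : V, a ≠ b ∧ a ≠ g ∧ b ≠ g ∧
      ∃ c ∈ L, c g = z ∧ (c a).1 = 1 ∧ (c b).1 = 1 ∧ ∀ v, v ≠ g → v ≠ a → v ≠ b → c v = 0 := by
  classical
  have ex : ∀ h : Finset V → V, (∀ M ∈ P.erase M0, h M ∈ M) → ∃ a ∈ M0, ∀ m ∈ M0,
      (y m e).2 + ∑ M ∈ P.erase M0, (y m (h M)).1 = if m = a then 1 else 0 := by
    intro h hh
    obtain ⟨r, h1, h2, h3, ⟨a, h4, h5⟩, h6⟩ := hr h
      (fun M hM hne => hh M (Finset.mem_erase.2 ⟨hne, hM⟩))
    exact ⟨a, h4, fun m hm => H.pair h hh r h1 h2 h3 a h5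
      (fun M hM v hv => h6 M (Finset.mem_of_mem_erase hM) (Finset.ne_of_mem_erase hM) v hv) m hm⟩
  obtain ⟨A, hE⟩ : ∃ A : (Finset V → V) → V, ∀ h : Finset V → V, (∀ M ∈ P.erase M0, h M ∈ M) →
      A h ∈ M0 ∧ ∀ m ∈ M0, (fun m => (y m e).2) m + ∑ M ∈ P.erase M0, (fun m v => (y m v).1) m (h M)
        = if m = A h then 1 else 0 := by
    have ex' : ∀ h : Finset V → V, ∃ a : V, (∀ M ∈ P.erase M0, h M ∈ M) → a ∈ M0 ∧ ∀ m ∈ M0,
        (y m e).2 + ∑ M ∈ P.erase M0, (y m (h M)).1 = if m = a then 1 else 0 := by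
      intro h
      by_cases hh : ∀ M ∈ P.erase M0, h M ∈ M
      · obtain ⟨a, h1, h2⟩ := ex h hh
        exact ⟨a, fun _ => ⟨h1, h2⟩⟩
      · exact ⟨e, fun h1 => absurd h1 hh⟩
    choose A hA using ex'
    exact ⟨A, hA⟩
  obtain ⟨h0, hh0⟩ : ∃ h0 : Finset V → V, ∀ M ∈ P.erase M0, h0 M ∈ M := by
    refine ⟨fun M => if hM : M.Nonempty then hM.choose else e, ?_⟩
    intro M hM
    have h1 : M.Nonempty := Finset.nonempty_iff_ne_empty.2 (H.part M (Finset.mem_of_mem_erase hM)).1
    dsimp only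
    rw [dif_pos h1]
    exact h1.choose_spec
  by_cases hA : ∃ M ∈ P.erase M0, ∃ M' ∈ P.erase M0, M ≠ M' ∧
      (∃ s ∈ M, ∃ s' ∈ M, ∃ m ∈ M0, (y m s).1 + (y m s').1 = 1) ∧
      (∃ t ∈ M', ∃ t' ∈ M', ∃ m ∈ M0, (y m t).1 + (y m t').1 = 1)
  · obtain ⟨M, hM, M', hM', hne, ⟨s, hs, s', hs', m1, hm1, e1⟩, ⟨t, ht, t', ht', m2, hm2, e2⟩⟩ := hA
    obtain ⟨k1, p, hp, q, hq, hpq, k2⟩ := two_parts (P.erase M0) M0 (fun m => (y m e).2)
      (fun m v => (y m v).1) A hE h0 hh0 M M' hM hM' hne s s' t t' hs hs' ht ht'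
      ⟨m1, hm1, e1⟩ ⟨m2, hm2, e2⟩
    have all : ∀ m ∈ M0, m = p ∨ m = q := by
      intro m hm
      have h1 : (y m s).1 + (y m s').1 = 1 := by
        obtain ⟨N, hN, n, hn, n', hn', e3⟩ := H.active hm
        by_cases hNM : N = M
        · have hNM' : M' ≠ N := by
            rw [hNM]
            exact Ne.symm hne
          obtain ⟨k3, -⟩ := two_parts (P.erase M0) M0 (fun m => (y m e).2)
            (fun m v => (y m v).1) A hE h0 hh0 M' N hM' hN hNM' t t' n n' ht ht' hn hn'
            ⟨m2, hm2, e2⟩ ⟨m, hm, e3⟩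
          have k4 := k1 m hm
          have k5 := k3 m hm
          rw [k4, k5, e3]
        · obtain ⟨k3, -⟩ := two_parts (P.erase M0) M0 (fun m => (y m e).2)
            (fun m v => (y m v).1) A hE h0 hh0 M N hM hN (Ne.symm hNM) s s' n n' hs hs' hn hn'
            ⟨m1, hm1, e1⟩ ⟨m, hm, e3⟩
          have k5 := k3 m hm
          rw [k5, e3]
      have h2 := k2 m hm
      rw [h1] at h2
      by_contra hcon
      push Not at hcon
      rw [if_neg hcon.1, if_neg hcon.2] at h2
      exact absurd h2 (by decide)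
    refine ⟨e, p, q, hpq, H.ne_e H.M0mem hp, H.ne_e H.M0mem hq, pw D e M0,
      (H.part M0 H.M0mem).2.2, ?_, ?_, ?_, ?_⟩
    · rw [pw, if_pos rfl]
    · rw [pw, if_neg (H.ne_e H.M0mem hp), if_pos hp]
      exact H.letter _ (H.ne_e H.M0mem hp)
    · rw [pw, if_neg (H.ne_e H.M0mem hq), if_pos hq]
      exact H.letter _ (H.ne_e H.M0mem hq)
    · intro v h1 h2 h3
      have h4 : v ∉ M0 := fun h5 => (all v h5).elim h2 h3
      rw [pw, if_neg h1, if_neg h4]
  · obtain ⟨l, hl, g, hg, hgl, hlg⟩ := leaf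
    obtain ⟨M1, hM1, s1, hs1, t1, ht1, e1⟩ := H.active hl
    have hM1P := Finset.mem_of_mem_erase hM1
    have hM10 := Finset.ne_of_mem_erase hM1
    have const : ∀ N ∈ P.erase M0, N ≠ M1 → ∀ m ∈ M0, ∀ n ∈ N, ∀ n' ∈ N,
        (y m n).1 = (y m n').1 := by
      intro N hN hNM m hm n hn n' hn'
      by_contra hne
      apply hA
      refine ⟨N, hN, M1, hM1, hNM, ⟨n, hn, n', hn', m, hm, ?_⟩, ⟨s1, hs1, t1, ht1, l, hl, e1⟩⟩
      rcases z2_cases (y m n).1 with ha | ha <;> rcases z2_cases (y m n').1 with hb | hb <;>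
        rw [ha, hb] at hne ⊢ <;> first | exact absurd rfl hne | decide
    set α : V → V := fun v => A (Function.update h0 M1 v) with hα
    set κ : V → ZMod 2 := fun m => (y m e).2 + ∑ N ∈ (P.erase M0).erase M1, (y m (h0 N)).1 with hκ
    have hup : ∀ v ∈ M1, ∀ N ∈ P.erase M0, Function.update h0 M1 v N ∈ N := by
      intro v hv N hN
      by_cases hNM : N = M1
      · subst hNM
        rw [Function.update_self]
        exact hv
      · rw [Function.update_of_ne hNM]
        exact hh0 N hN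
    have hαm : ∀ v ∈ M1, α v ∈ M0 := fun v hv => (hE _ (hup v hv)).1
    have hρ : ∀ m ∈ M0, ∀ v ∈ M1, (y m v).1 = κ m + if m = α v then 1 else 0 := by
      intro m hm v hv
      have h1 := (hE _ (hup v hv)).2 m hm
      dsimp only at h1
      rw [← Finset.add_sum_erase _ _ hM1, Function.update_self] at h1
      have h2 : ∑ x ∈ (P.erase M0).erase M1, (y m (Function.update h0 M1 v x)).1 =
          ∑ x ∈ (P.erase M0).erase M1, (y m (h0 x)).1 := by
        refine Finset.sum_congr rfl fun N hN => ?_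
        rw [Function.update_of_ne (Finset.ne_of_mem_erase hN)]
      rw [h2] at h1
      have h3 : (if m = α v then (1 : ZMod 2) else 0) = κ m + (y m v).1 := by
        rw [hα, hκ]
        dsimp only
        rw [← h1]
        ring
      rw [h3, ← add_assoc, z2_self, zero_add]
    have hsurj : ∀ m ∈ M0, ∃ v ∈ M1, α v = m := by
      intro m hm
      by_contra hcon
      push Not at hcon
      have h1 := H.odd hm
      have h2 : ∑ M ∈ P.erase M0, ∑ v ∈ M, (y m v).1 = 0 := by
        refine Finset.sum_eq_zero fun N hN => ?_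
        have hNP := Finset.mem_of_mem_erase hN
        by_cases hNM : N = M1
        · subst hNM
          have h3 : ∑ v ∈ N, (y m v).1 = ∑ _v ∈ N, κ m := by
            refine Finset.sum_congr rfl fun v hv => ?_
            rw [hρ m hm v hv, if_neg (Ne.symm (hcon v hv)), add_zero]
          rw [h3, Finset.sum_const, nsmul_eq_mul, H.even hNP, zero_mul]
        · have h3 : ∑ v ∈ N, (y m v).1 = ∑ _v ∈ N, (y m (h0 N)).1 := by
            refine Finset.sum_congr rfl fun v hv => ?_
            exact const N hN hNM m hm v hv (h0 N) (hh0 N hN)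
          rw [h3, Finset.sum_const, nsmul_eq_mul, H.even hNP, zero_mul]
      rw [h1] at h2
      exact absurd h2 (by decide)
    have hinj : Set.InjOn α (M1 : Set V) := by
      refine Finset.injOn_of_surjOn_of_card_le (s := M1) (t := M0) α ?_ ?_ (H.big M1 hM1P)
      · intro v hv
        exact hαm v hv
      · intro m hm
        obtain ⟨v, hv, e2⟩ := hsurj m hm
        exact ⟨v, hv, e2⟩
    obtain ⟨b, hb, hbl⟩ := hsurj l hl
    obtain ⟨r1, r2, r3, r4, r5⟩ := H.row l hl
    set σ : Finset V → ZMod 2 := fun N => if N = M1 then κ l else (y l (h0 N)).1 with hσ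
    have hcL : y l + ∑ N ∈ P.erase M0, σ N • pw D e N ∈ L := by
      refine L.add_mem r1 (L.sum_mem fun N hN => L.smul_mem _ ?_)
      exact (H.part N (Finset.mem_of_mem_erase hN)).2.2
    have val0 : ∀ v ∈ M0, (y l + ∑ N ∈ P.erase M0, σ N • pw D e N) v = y l v := by
      intro v hv
      rw [Pi.add_apply, Finset.sum_apply]
      have h1 : ∑ N ∈ P.erase M0, (σ N • pw D e N) v = 0 := by
        refine Finset.sum_eq_zero fun N hN => ?_
        have h2 : v ∉ N := H.notMem H.M0mem (Finset.mem_of_mem_erase hN)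
          (Ne.symm (Finset.ne_of_mem_erase hN)) hv
        rw [Pi.smul_apply, pw, if_neg (H.ne_e H.M0mem hv), if_neg h2, smul_zero]
      rw [h1, add_zero]
    have valN : ∀ N ∈ P.erase M0, ∀ v ∈ N,
        (y l + ∑ N ∈ P.erase M0, σ N • pw D e N) v = y l v + σ N • D v := by
      intro N hN v hv
      have hNP := Finset.mem_of_mem_erase hN
      rw [Pi.add_apply, Finset.sum_apply]
      congr 1
      rw [Finset.sum_eq_single N]
      · rw [Pi.smul_apply, pw, if_neg (H.ne_e hNP hv), if_pos hv]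
      · intro N' hN' hne
        have h2 : v ∉ N' := H.notMem hNP (Finset.mem_of_mem_erase hN') (Ne.symm hne) hv
        rw [Pi.smul_apply, pw, if_neg (H.ne_e hNP hv), if_neg h2, smul_zero]
      · intro h2
        exact absurd hN h2
    have vale : (y l + ∑ N ∈ P.erase M0, σ N • pw D e N) e = 0 := by
      rw [Pi.add_apply, Finset.sum_apply]
      have h1 : ∑ N ∈ P.erase M0, (σ N • pw D e N) e = (∑ N ∈ P.erase M0, σ N) • z := by
        rw [Finset.sum_smul]
        refine Finset.sum_congr rfl fun N _ => ?_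
        rw [Pi.smul_apply, pw, if_pos rfl]
      have h2 : ∑ N ∈ P.erase M0, σ N = κ l + ∑ N ∈ (P.erase M0).erase M1, (y l (h0 N)).1 := by
        rw [← Finset.add_sum_erase _ _ hM1]
        congr 1
        · rw [hσ]
          dsimp only
          rw [if_pos rfl]
        · refine Finset.sum_congr rfl fun N hN => ?_
          rw [hσ]
          dsimp only
          rw [if_neg (Finset.ne_of_mem_erase hN)]
      have h3 : ∑ N ∈ P.erase M0, σ N = (y l e).2 := by
        rw [h2, hκ]
        dsimp only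
        rw [add_assoc, z2_self, add_zero]
      rw [h1, h3]
      apply Prod.ext
      · rw [Prod.fst_add, r5]
        simp [z]
      · rw [Prod.snd_add]
        have h4 := z2_self (y l e).2
        simpa [z] using h4
    have zero_of : ∀ v, v ≠ e → (y l v = 0 ∨ y l v = D v) → ∀ s : ZMod 2, (y l v).1 = s →
        y l v + s • D v = 0 := by
      intro v hv h1 s h2
      rcases z2_cases s with h3 | h3
      · rw [h3] at h2
        rw [k_zero_of_fst (H.letter v hv) h1 h2, h3, zero_smul, add_zero]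
      · rw [h3] at h2
        rw [k_eq_of_fst h1 h2, h3, one_smul, k_add_self]
    have hlM1 : l ∉ M1 := H.notMem H.M0mem hM1P (Ne.symm hM10) hl
    have hgM1 : g ∉ M1 := H.notMem H.M0mem hM1P (Ne.symm hM10) hg
    refine ⟨g, l, b, ?_, Ne.symm hgl, ?_, _, hcL, ?_, ?_, ?_, ?_⟩
    · rintro rfl
      exact hlM1 hb
    · rintro rfl
      exact hgM1 hb
    · rw [val0 g hg]
      exact (hlg g hg hgl).2 rfl
    · rw [val0 l hl]
      exact r2
    · rw [valN M1 hM1 b hb, Prod.fst_add, Prod.smul_fst, H.letter b (H.ne_e hM1P hb),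
        hρ l hl b hb, if_pos hbl.symm, hσ]
      dsimp only
      rw [if_pos rfl]
      have h1 := z2_self (κ l)
      rw [smul_eq_mul]
      linear_combination h1
    · intro v hvg hvl hvb
      by_cases hve : v = e
      · rw [hve]
        exact vale
      obtain ⟨N, hNP, hvN⟩ := H.cov v hve
      by_cases hN0 : N = M0
      · subst hN0
        rw [val0 v hvN]
        have h1 := r3 v hvN hvl
        have h2 : y l v ≠ z := fun h3 => hvg ((hlg v hvN hvl).1 h3)
        rcases z2_cases (y l v).2 with h3 | h3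
        · exact Prod.ext h1 h3
        · exact absurd (Prod.ext h1 h3) h2
      · have hN : N ∈ P.erase M0 := Finset.mem_erase.2 ⟨hN0, hNP⟩
        rw [valN N hN v hvN]
        apply zero_of v hve (r4 v (H.notMem hNP H.M0mem hN0 hvN) hve)
        by_cases hNM : N = M1
        · subst hNM
          rw [hρ l hl v hvN, hσ]
          dsimp only
          rw [if_pos rfl, if_neg, add_zero]
          intro h1
          apply hvb
          exact hinj hvN hb (by rw [hbl, ← h1])
        · rw [hσ]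
          dsimp only
          rw [if_neg hNM]
          exact const N hN hNM l hl v hvN (h0 N) (hh0 N hN)

end words

/-- The counting step of note 6830, with all the data as hypotheses. -/
theorem two_letter_word {V : Type} [Fintype V] [DecidableEq V]
    (L : Submodule (ZMod 2) (V → K)) (iso : ∀ u ∈ L, ∀ w ∈ L, form u w = 0)
    (one : (fun _ => z) ∈ L) (e : V) (D : V → K) (hD : ∀ v, v ≠ e → (D v).1 = 1)
    (P : Finset (Finset V)) (hP : ∀ M ∈ P, M ≠ ∅ ∧ e ∉ M ∧ pw D e M ∈ L)
    (hdis : ∀ M ∈ P, ∀ N ∈ P, M ≠ N → Disjoint M N) (hcov : ∀ v, v ≠ e → ∃ M ∈ P, v ∈ M)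
    (M0 : Finset V) (hM0 : M0 ∈ P) (hmax : ∀ M ∈ P, M.card ≤ M0.card) (hk : ∃ M ∈ P, M ≠ M0)
    (y : V → V → K)
    (hy : ∀ m ∈ M0, y m ∈ L ∧ (y m m).1 = 1 ∧ (∀ v ∈ M0, v ≠ m → (y m v).1 = 0) ∧
      (∀ v, v ∉ M0 → v ≠ e → y m v = 0 ∨ y m v = D v) ∧ (y m e).1 = 0)
    (leaf : ∃ l ∈ M0, ∃ g ∈ M0, g ≠ l ∧ ∀ v ∈ M0, v ≠ l → (y l v = z ↔ v = g))
    (hr : ∀ h : Finset V → V, (∀ M ∈ P, M ≠ M0 → h M ∈ M) →
      ∃ r ∈ L, (r e).1 = 1 ∧ (∀ v ∈ M0, (r v).1 = 0) ∧ (∃ a ∈ M0, ∀ v ∈ M0, (r v = z ↔ v = a)) ∧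
        ∀ M ∈ P, M ≠ M0 → ∀ v ∈ M, kf (r v) (if v = h M then D v + z else D v) = 0) :
    ∃ g a b : V, a ≠ b ∧ a ≠ g ∧ b ≠ g ∧
      ∃ c ∈ L, c g = z ∧ (c a).1 = 1 ∧ (c b).1 = 1 ∧ ∀ v, v ≠ g → v ≠ a → v ≠ b → c v = 0 :=
  Data.two_letter_word (y := y)
    ⟨iso, one, hD, hP, hdis, hcov, hM0, hmax, hy⟩ hk leaf hr

end Pool.Agent.H74.CT
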